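import Pool.Agent.H65.AD.TargetsA

/-!
# Row REP: quadratic characters as combinations of additive characters
-/

set_option autoImplicit false

open MeasureTheory Set Filter
open scoped Real

namespace Pool.Agent.H70.ADM

open Pool.Agent.H31.CN Pool.Agent.H95.AD Pool.Agent.H65.AD

/-- the representation -/
def Rep (r : ℕ) : Prop := ∃ ε : ℕ → ℂ, (∀ a, ‖ε a‖ ≤ 1) ∧
    ∀ D : ℕ, ((xD r D : ℝ) : ℂ) = ((1 / Real.sqrt r : ℝ) : ℂ) *
      ∑ a ∈ (Finset.range r).filter (fun a => Nat.Coprime a r), ε a * ee ((D : ℝ) * ((a : ℝ) / r))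

theorem ee_add (x y : ℝ) : ee (x + y) = ee x * ee y := by
  unfold ee
  rw [← Complex.exp_add]
  congr 1
  push_cast
  ring

theorem ee_int (n : ℤ) : ee (n : ℝ) = 1 := by
  unfold ee
  have h := Complex.exp_int_mul_two_pi_mul_I n
  rw [← h]
  congr 1
  push_cast
  ring

theorem ee_zero : ee 0 = 1 := by
  have := ee_int 0
  simpa using this

theorem rep_one : Rep 1 := by
  refine ⟨fun _ => 1, fun a => by simp, fun D => ?_⟩
  have h : (Finset.range 1).filter (fun a => Nat.Coprime a 1) = {0} := by decide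
  rw [h, Finset.sum_singleton]
  simp [xD, ee_zero]

theorem rep_mul {r1 r2 : ℕ} (h1 : 0 < r1) (h2 : 0 < r2) (hc : Nat.Coprime r1 r2)
    (H1 : Rep r1) (H2 : Rep r2) : Rep (r1 * r2) := by
  classical
  obtain ⟨ε1, hε1, hr1⟩ := H1
  obtain ⟨ε2, hε2, hr2⟩ := H2
  -- the inverses
  obtain ⟨u, hu⟩ : ∃ u : ℕ, r2 * u ≡ 1 [MOD r1] := by
    rcases Nat.lt_or_ge 1 r1 with h | h
    · obtain ⟨u, _, hu⟩ := Nat.exists_mul_mod_eq_one_of_coprime hc.symm h
      exact ⟨u, by rw [Nat.ModEq, hu, Nat.mod_eq_of_lt h]⟩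
    · have : r1 = 1 := le_antisymm h h1
      subst this
      exact ⟨0, Nat.modEq_one⟩
  obtain ⟨v, hv⟩ : ∃ v : ℕ, r1 * v ≡ 1 [MOD r2] := by
    rcases Nat.lt_or_ge 1 r2 with h | h
    · obtain ⟨u, _, hu⟩ := Nat.exists_mul_mod_eq_one_of_coprime hc h
      exact ⟨u, by rw [Nat.ModEq, hu, Nat.mod_eq_of_lt h]⟩
    · have : r2 = 1 := le_antisymm h h2
      subst this
      exact ⟨0, Nat.modEq_one⟩
  refine ⟨fun b => ε1 ((b * u) % r1) * ε2 ((b * v) % r2), fun b => ?_, fun D => ?_⟩
  · rw [norm_mul]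
    exact mul_le_one₀ (hε1 _) (norm_nonneg _) (hε2 _)
  have hx : xD (r1 * r2) D = xD r1 D * xD r2 D := by
    unfold xD
    rw [hc.primeFactors_mul, Finset.prod_union hc.disjoint_primeFactors]
  have hs : ((1 / Real.sqrt ((r1 * r2 : ℕ) : ℝ) : ℝ) : ℂ) =
      ((1 / Real.sqrt r1 : ℝ) : ℂ) * ((1 / Real.sqrt r2 : ℝ) : ℂ) := by
    rw [← Complex.ofReal_mul, Nat.cast_mul, Real.sqrt_mul (Nat.cast_nonneg _)]
    congr 1
    rw [div_mul_div_comm, one_mul]
  rw [hx, Complex.ofReal_mul, hr1 D, hr2 D, hs]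
  have hmain : (∑ a ∈ (Finset.range r1).filter (fun a => Nat.Coprime a r1),
        ε1 a * ee ((D : ℝ) * ((a : ℝ) / r1))) *
      (∑ a ∈ (Finset.range r2).filter (fun a => Nat.Coprime a r2),
        ε2 a * ee ((D : ℝ) * ((a : ℝ) / r2))) =
      ∑ b ∈ (Finset.range (r1 * r2)).filter (fun a => Nat.Coprime a (r1 * r2)),
        ε1 ((b * u) % r1) * ε2 ((b * v) % r2) * ee ((D : ℝ) * ((b : ℝ) / ((r1 * r2 : ℕ) : ℝ))) := by
    rw [Finset.sum_mul_sum, ← Finset.sum_product']
    -- facts on the two maps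
    have L1 : ∀ a1 a2 : ℕ, a1 < r1 → ((a1 * r2 + a2 * r1) % (r1 * r2) * u) % r1 = a1 := by
      intro a1 a2 ha
      have e1 : (a1 * r2 + a2 * r1) % (r1 * r2) ≡ a1 * r2 + a2 * r1 [MOD r1] :=
        (Nat.mod_modEq _ _).of_mul_right r2
      have e2 : a1 * r2 + a2 * r1 ≡ a1 * r2 [MOD r1] := by
        have : a2 * r1 ≡ 0 [MOD r1] := (Nat.modEq_zero_iff_dvd).2 (Dvd.intro_left _ rfl)
        simpa using Nat.ModEq.add_left (a1 * r2) this
      have e3 : (a1 * r2 + a2 * r1) % (r1 * r2) * u ≡ a1 [MOD r1] := by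
        refine ((e1.trans e2).mul_right u).trans ?_
        have := hu.mul_left a1
        rw [mul_one] at this
        rwa [mul_assoc]
      rw [Nat.ModEq] at e3
      rw [e3, Nat.mod_eq_of_lt ha]
    have L2 : ∀ a1 a2 : ℕ, a2 < r2 → ((a1 * r2 + a2 * r1) % (r1 * r2) * v) % r2 = a2 := by
      intro a1 a2 ha
      have e1 : (a1 * r2 + a2 * r1) % (r1 * r2) ≡ a1 * r2 + a2 * r1 [MOD r2] :=
        (Nat.mod_modEq _ _).of_mul_left r1
      have e2 : a1 * r2 + a2 * r1 ≡ a2 * r1 [MOD r2] := by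
        have : a1 * r2 ≡ 0 [MOD r2] := (Nat.modEq_zero_iff_dvd).2 (Dvd.intro_left _ rfl)
        simpa using Nat.ModEq.add_right (a2 * r1) this
      have e3 : (a1 * r2 + a2 * r1) % (r1 * r2) * v ≡ a2 [MOD r2] := by
        refine ((e1.trans e2).mul_right v).trans ?_
        have := hv.mul_left a2
        rw [mul_one] at this
        rwa [mul_assoc]
      rw [Nat.ModEq] at e3
      rw [e3, Nat.mod_eq_of_lt ha]
    have hcu : Nat.Coprime u r1 := by
      have : Nat.Coprime (r2 * u) r1 := by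
        rw [Nat.Coprime, Nat.ModEq.gcd_eq hu, Nat.gcd_one_left]
      exact Nat.Coprime.coprime_mul_left this
    have hcv : Nat.Coprime v r2 := by
      have : Nat.Coprime (r1 * v) r2 := by
        rw [Nat.Coprime, Nat.ModEq.gcd_eq hv, Nat.gcd_one_left]
      exact Nat.Coprime.coprime_mul_left this
    refine Finset.sum_bij' (fun x _ => (x.1 * r2 + x.2 * r1) % (r1 * r2))
      (fun b _ => ((b * u) % r1, (b * v) % r2)) ?_ ?_ ?_ ?_ ?_
    · rintro ⟨a1, a2⟩ ha
      simp only [Finset.mem_product, Finset.mem_filter, Finset.mem_range] at ha ⊢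
      refine ⟨Nat.mod_lt _ (Nat.mul_pos h1 h2), ?_⟩
      rw [Nat.Coprime, (Nat.mod_modEq (a1 * r2 + a2 * r1) (r1 * r2)).gcd_eq, ← Nat.Coprime]
      refine Nat.Coprime.mul_right ?_ ?_
      · rw [Nat.coprime_add_mul_right_left]
        exact Nat.Coprime.mul_left ha.1.2 hc.symm
      · rw [add_comm, Nat.coprime_add_mul_right_left]
        exact Nat.Coprime.mul_left ha.2.2 hc
    · intro b hb
      simp only [Finset.mem_product, Finset.mem_filter, Finset.mem_range] at hb ⊢
      obtain ⟨hb1, hb2⟩ := Nat.coprime_mul_iff_right.1 hb.2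
      refine ⟨⟨Nat.mod_lt _ h1, ?_⟩, ⟨Nat.mod_lt _ h2, ?_⟩⟩
      · rw [Nat.Coprime, (Nat.mod_modEq (b * u) r1).gcd_eq, ← Nat.Coprime]
        exact Nat.Coprime.mul_left hb1 hcu
      · rw [Nat.Coprime, (Nat.mod_modEq (b * v) r2).gcd_eq, ← Nat.Coprime]
        exact Nat.Coprime.mul_left hb2 hcv
    · rintro ⟨a1, a2⟩ ha
      simp only [Finset.mem_product, Finset.mem_filter, Finset.mem_range] at ha
      exact Prod.ext (L1 a1 a2 ha.1.1) (L2 a1 a2 ha.2.1)
    · intro b hb
      simp only [Finset.mem_filter, Finset.mem_range] at hb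
      show ((b * u) % r1 * r2 + (b * v) % r2 * r1) % (r1 * r2) = b
      have e1 : (b * u) % r1 * r2 + (b * v) % r2 * r1 ≡ b [MOD r1] := by
        have k1 : (b * v) % r2 * r1 ≡ 0 [MOD r1] :=
          (Nat.modEq_zero_iff_dvd).2 (Dvd.intro_left _ rfl)
        have k2 : (b * u) % r1 * r2 ≡ b * u * r2 [MOD r1] := (Nat.mod_modEq _ _).mul_right _
        have k3 : b * u * r2 ≡ b [MOD r1] := by
          have := hu.mul_left b
          rw [mul_one] at this
          rwa [mul_assoc, mul_comm u r2]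
        have := (k2.trans k3).add k1
        rwa [add_zero] at this
      have e2 : (b * u) % r1 * r2 + (b * v) % r2 * r1 ≡ b [MOD r2] := by
        have k1 : (b * u) % r1 * r2 ≡ 0 [MOD r2] :=
          (Nat.modEq_zero_iff_dvd).2 (Dvd.intro_left _ rfl)
        have k2 : (b * v) % r2 * r1 ≡ b * v * r1 [MOD r2] := (Nat.mod_modEq _ _).mul_right _
        have k3 : b * v * r1 ≡ b [MOD r2] := by
          have := hv.mul_left b
          rw [mul_one] at this
          rwa [mul_assoc, mul_comm v r1]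
        have := k1.add (k2.trans k3)
        rwa [zero_add] at this
      have e3 := (Nat.modEq_and_modEq_iff_modEq_mul hc).1 ⟨e1, e2⟩
      rw [Nat.ModEq] at e3
      rw [e3, Nat.mod_eq_of_lt hb.1]
    · rintro ⟨a1, a2⟩ ha
      simp only [Finset.mem_product, Finset.mem_filter, Finset.mem_range] at ha
      show ε1 a1 * ee ((D : ℝ) * ((a1 : ℝ) / r1)) * (ε2 a2 * ee ((D : ℝ) * ((a2 : ℝ) / r2))) =
        ε1 ((a1 * r2 + a2 * r1) % (r1 * r2) * u % r1) *
          ε2 ((a1 * r2 + a2 * r1) % (r1 * r2) * v % r2) *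
          ee ((D : ℝ) * ((((a1 * r2 + a2 * r1) % (r1 * r2) : ℕ) : ℝ) / ((r1 * r2 : ℕ) : ℝ)))
      rw [L1 a1 a2 ha.1.1, L2 a1 a2 ha.2.1]
      have hr1' : (r1 : ℝ) ≠ 0 := by positivity
      have hr2' : (r2 : ℝ) ≠ 0 := by positivity
      have hE : ee ((D : ℝ) * ((a1 : ℝ) / r1)) * ee ((D : ℝ) * ((a2 : ℝ) / r2)) =
          ee ((D : ℝ) * ((((a1 * r2 + a2 * r1) % (r1 * r2) : ℕ) : ℝ) / ((r1 * r2 : ℕ) : ℝ))) := by
        rw [← ee_add]
        have hdm := Nat.mod_add_div (a1 * r2 + a2 * r1) (r1 * r2)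
        have hdm' : (((a1 * r2 + a2 * r1) % (r1 * r2) : ℕ) : ℝ) +
            (r1 * r2) * (((a1 * r2 + a2 * r1) / (r1 * r2) : ℕ) : ℝ) =
            (a1 : ℝ) * r2 + a2 * r1 := by exact_mod_cast hdm
        have hx : (D : ℝ) * ((a1 : ℝ) / r1) + (D : ℝ) * ((a2 : ℝ) / r2) =
            (D : ℝ) * ((((a1 * r2 + a2 * r1) % (r1 * r2) : ℕ) : ℝ) / ((r1 * r2 : ℕ) : ℝ)) +
              (((D * ((a1 * r2 + a2 * r1) / (r1 * r2)) : ℕ) : ℤ) : ℝ) := by
          rw [Int.cast_natCast, Nat.cast_mul, Nat.cast_mul]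
          have e : (((a1 * r2 + a2 * r1) % (r1 * r2) : ℕ) : ℝ) = (a1 : ℝ) * r2 + a2 * r1 -
            (r1 * r2) * (((a1 * r2 + a2 * r1) / (r1 * r2) : ℕ) : ℝ) := by linarith
          rw [e]
          field_simp
          ring
        rw [hx, ee_add, ee_int, mul_one]
      rw [← hE]
      ring
  rw [← hmain]
  ring

/-- the quadratic character with complex values -/
noncomputable def qc (p : ℕ) [Fact p.Prime] : MulChar (ZMod p) ℂ :=
  (quadraticChar (ZMod p)).ringHomComp (Int.castRingHom ℂ)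

theorem chi_eq (p : ℕ) [Fact p.Prime] (hp : p ≠ 2) (D : ℕ) :
    chi p D = quadraticChar (ZMod p) (-(D : ZMod p)) := by
  classical
  have hF : ringChar (ZMod p) ≠ 2 := by rwa [ZMod.ringChar_zmod_n]
  have h := quadraticChar_card_sqrts hF (-(D : ZMod p))
  have hn : nrt p 1 0 D = ({x : ZMod p | x ^ 2 = -(D : ZMod p)}.toFinset).card := by
    unfold nrt
    refine Finset.card_bij (fun j _ => ((j : ℕ) : ZMod p)) ?_ ?_ ?_
    · intro j hj
      rw [Finset.mem_filter] at hj
      rw [Set.mem_toFinset, Set.mem_setOf_eq]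
      have h1 := (ZMod.intCast_zmod_eq_zero_iff_dvd (1 * (j : ℤ) ^ 2 + 0 * (j : ℤ) + D) p).2 hj.2
      push_cast at h1
      have h2 : ((j : ZMod p)) ^ 2 + D = 0 := by
        rw [← h1]; ring
      exact eq_neg_of_add_eq_zero_left h2
    · intro a ha b hb hab
      rw [Finset.mem_filter, Finset.mem_range] at ha hb
      have := (ZMod.natCast_eq_natCast_iff' a b p).1 hab
      rwa [Nat.mod_eq_of_lt ha.1, Nat.mod_eq_of_lt hb.1] at this
    · intro x hx
      rw [Set.mem_toFinset, Set.mem_setOf_eq] at hx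
      refine ⟨x.val, ?_, ?_⟩
      · rw [Finset.mem_filter, Finset.mem_range]
        refine ⟨ZMod.val_lt x, ?_⟩
        rw [← ZMod.intCast_zmod_eq_zero_iff_dvd]
        push_cast
        rw [ZMod.natCast_val, ZMod.cast_id', id, hx]
        ring
      · rw [ZMod.natCast_val, ZMod.cast_id', id]
  unfold chi
  rw [if_neg hp, hn]
  rw [h]
  ring

theorem rep_prime (p : ℕ) [hpf : Fact p.Prime] (hp : p ≠ 2) : Rep p := by
  classical
  have hF : ringChar (ZMod p) ≠ 2 := by rwa [ZMod.ringChar_zmod_n]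
  have hp0 : 0 < p := hpf.out.pos
  set χ := qc p with hχ
  set ψ : AddChar (ZMod p) ℂ := ZMod.stdAddChar with hψ
  have hprim : ψ.IsPrimitive := ZMod.isPrimitive_stdAddChar p
  have hval : ∀ x, χ x = ((quadraticChar (ZMod p) x : ℤ) : ℂ) := fun x => rfl
  have hquad : χ.IsQuadratic := by
    intro a
    rcases quadraticChar_isQuadratic (F := ZMod p) a with h | h | h
    · left; rw [hval, h]; simp
    · right; left; rw [hval, h]; simp
    · right; right; rw [hval, h]; simp
  have hne : χ ≠ 1 := by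
    intro h
    obtain ⟨a, ha⟩ := quadraticChar_exists_neg_one' hF
    have h1 : χ a = 1 := by rw [h]; exact MulChar.one_apply_coe a
    rw [hval, ha] at h1
    norm_num at h1
  set G := gaussSum χ ψ with hG
  have hG2 : G ^ 2 = χ (-1) * Fintype.card (ZMod p) := gaussSum_sq hne hquad hprim
  have hnorm1 : ∀ a, ‖χ a‖ ≤ 1 := by
    intro a
    rcases hquad a with h | h | h <;> rw [h] <;> simp
  have hm1 : ‖χ (-1)‖ = 1 := by
    have h := hquad (-1)
    rcases h with h | h | h
    · exfalso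
      have h2 : χ (-1) * χ (-1) = 1 := by
        rw [← map_mul]; simp
      rw [h] at h2; norm_num at h2
    · rw [h]; simp
    · rw [h]; simp
  have hGn : ‖G‖ = Real.sqrt p := by
    have h1 : ‖G‖ ^ 2 = p := by
      rw [← norm_pow, hG2, norm_mul, hm1, one_mul, ZMod.card]
      simp
    rw [← h1, Real.sqrt_sq (norm_nonneg _)]
  have hsp : 0 < Real.sqrt p := Real.sqrt_pos.2 (by exact_mod_cast hp0)
  have hG0 : G ≠ 0 := by
    intro h
    rw [h, norm_zero] at hGn
    exact absurd hGn (ne_of_lt hsp)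
  have hsum : ∀ n : ZMod p, ∑ a, χ a * ψ (n * a) = χ n * G := by
    intro n
    by_cases hn : n = 0
    · subst hn
      simp only [zero_mul, AddChar.map_zero_eq_one, mul_one]
      rw [MulChar.sum_eq_zero_of_ne_one hne, MulChar.map_zero, zero_mul]
    · have h1 := gaussSum_mulShift_eq χ ψ (Units.mk0 n hn)
      rw [hquad.inv] at h1
      simp only [gaussSum, AddChar.mulShift_apply, Units.val_mk0] at h1
      exact h1
  refine ⟨fun a => (Real.sqrt p : ℂ) * G⁻¹ * χ (-(a : ZMod p)), fun a => ?_, fun D => ?_⟩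
  · rw [norm_mul, norm_mul, norm_inv, hGn, Complex.norm_real, Real.norm_eq_abs,
      abs_of_pos hsp, mul_inv_cancel₀ hsp.ne', one_mul]
    exact hnorm1 _
  have hx : ((xD p D : ℝ) : ℂ) = χ (-(D : ZMod p)) := by
    unfold xD
    rw [hpf.out.primeFactors, Finset.prod_singleton, chi_eq p hp D, hval]
    simp
  rw [hx]
  have hψv : ∀ a : ℕ, ee ((D : ℝ) * ((a : ℝ) / p)) = ψ ((D : ZMod p) * (a : ZMod p)) := by
    intro a
    have h1 := ZMod.stdAddChar_coe (N := p) ((D : ℤ) * (a : ℤ))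
    have h2 : (((D : ℤ) * (a : ℤ) : ℤ) : ZMod p) = (D : ZMod p) * (a : ZMod p) := by push_cast; rfl
    rw [h2] at h1
    rw [hψ, h1]
    unfold ee
    congr 1
    push_cast
    ring
  have hs : ∑ a ∈ (Finset.range p).filter (fun a => Nat.Coprime a p),
      (Real.sqrt p : ℂ) * G⁻¹ * χ (-(a : ZMod p)) * ee ((D : ℝ) * ((a : ℝ) / p)) =
      (Real.sqrt p : ℂ) * G⁻¹ * ∑ x : ZMod p, χ (-x) * ψ ((D : ZMod p) * x) := by
    rw [Finset.sum_filter_of_ne, Finset.mul_sum]
    · refine Finset.sum_bij' (fun a _ => (a : ZMod p)) (fun x _ => x.val) ?_ ?_ ?_ ?_ ?_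
      · intro a _; exact Finset.mem_univ _
      · intro x _; exact Finset.mem_range.2 (ZMod.val_lt x)
      · intro a ha; exact ZMod.val_cast_of_lt (Finset.mem_range.1 ha)
      · intro x _; rw [ZMod.natCast_val, ZMod.cast_id', id]
      · intro a _
        rw [hψv a]; ring
    · intro a ha hne0
      rw [Nat.coprime_comm, hpf.out.coprime_iff_not_dvd]
      intro hd
      apply hne0
      have : (a : ZMod p) = 0 := (ZMod.natCast_eq_zero_iff a p).2 hd
      rw [this, neg_zero, MulChar.map_zero]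
      simp
  rw [hs]
  have hs2 : ∑ x : ZMod p, χ (-x) * ψ ((D : ZMod p) * x) = χ (-(D : ZMod p)) * G := by
    rw [← hsum (-(D : ZMod p))]
    refine Fintype.sum_equiv (Equiv.neg (ZMod p)) _ _ ?_
    intro x
    simp
  rw [hs2]
  have hsc : ((1 / Real.sqrt p : ℝ) : ℂ) * (Real.sqrt p : ℂ) = 1 := by
    rw [← Complex.ofReal_mul, one_div, inv_mul_cancel₀ hsp.ne', Complex.ofReal_one]
  calc χ (-(D : ZMod p)) = (((1 / Real.sqrt p : ℝ) : ℂ) * (Real.sqrt p : ℂ)) * (G⁻¹ * G) *
        χ (-(D : ZMod p)) := by rw [hsc, inv_mul_cancel₀ hG0]; ring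
    _ = _ := by ring

theorem pf_REP : T_REP := by
  intro r hr hodd hsq
  have H : ∀ r : ℕ, 0 < r → Odd r → Squarefree r → Rep r := by
    intro r
    induction r using Nat.strong_induction_on with
    | _ r ih =>
      intro hr hodd hsq
      rcases Nat.lt_or_ge 1 r with h | h
      · have hpp : (r.minFac).Prime := Nat.minFac_prime (by omega)
        obtain ⟨s, hs⟩ := Nat.minFac_dvd r
        set p := r.minFac with hp
        have hs0 : 0 < s := by
          rcases Nat.eq_zero_or_pos s with h0 | h0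
          · subst h0; omega
          · exact h0
        have hslt : s < r := by
          have := hpp.two_le
          nlinarith
        have hc : Nat.Coprime p s := by
          rw [hs] at hsq
          exact Nat.coprime_of_squarefree_mul hsq
        have hsodd : Odd s := by
          rw [hs] at hodd
          exact (Nat.odd_mul.1 hodd).2
        have hpodd : Odd p := by
          rw [hs] at hodd
          exact (Nat.odd_mul.1 hodd).1
        have hssq : Squarefree s := by
          rw [hs] at hsq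
          exact hsq.of_mul_right
        have hs1 := ih s hslt hs0 hsodd hssq
        have : Fact p.Prime := ⟨hpp⟩
        have hp2 : p ≠ 2 := by
          intro h2
          rw [h2] at hpodd
          exact absurd hpodd (by decide)
        rw [hs]
        exact rep_mul hpp.pos hs0 hc (rep_prime p hp2) hs1
      · have : r = 1 := le_antisymm h hr
        rw [this]
        exact rep_one
  exact H r (by omega) hodd hsq

end Pool.Agent.H70.ADM
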